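import Mathlib

set_option autoImplicit false

/-!
# Uniquely `k`-list colourable graphs have average degree larger than `2k - 2`

We prove that for every `k ≥ 2` every (nonempty finite simple) graph of average degree at most
`2k - 2` has property `M(k)`, i.e. is not uniquely `k`-list colourable.  The case of average degree
exactly `2k - 2` is the open question.

Proof idea: let `p` be a prime factor of `k` and put the colours into a field `F` of characteristic
`p`.  The graph polynomial `P` is invariant under translations, so the sum of its partial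
derivatives is zero; comparing coefficients, the coefficient of `∏ x_v ^ (k-1)` in `P` vanishes in
`F`.  If there were exactly one proper list colouring `c`, then `P - α R`, with
`R = ∏_v ∏_{y ∈ S_v, y ≠ c v} (x_v - y)` and a suitable `α ≠ 0`, would vanish on the whole grid
although its coefficient at `∏ x_v ^ (k-1)` is `-α ≠ 0`, contradicting the combinatorial
Nullstellensatz.
-/

namespace Pool.Agent.Results.MP_e14bb7_co.AverageDegreeThreshold

open MvPolynomial

universe u w

/-- `c` is a proper list colouring of `G` from the lists `S`. -/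
def IsListColouring {V : Type u} {C : Type w} (G : SimpleGraph V) (S : V → Finset C)
    (c : V → C) : Prop :=
  (∀ v, c v ∈ S v) ∧ ∀ u v, G.Adj u v → c u ≠ c v

/-- `G` is uniquely `k`-list colourable: for some lists of `k` colours there is exactly one proper
list colouring. -/
def UniquelyListColourable {V : Type u} (G : SimpleGraph V) (k : ℕ) : Prop :=
  ∃ (C : Type) (S : V → Finset C), (∀ v, (S v).card = k) ∧ ∃! c : V → C, IsListColouring G S c

/-- Property `M(k)`: the graph is not uniquely `k`-list colourable. -/
def PropertyM {V : Type u} (G : SimpleGraph V) (k : ℕ) : Prop := ¬ UniquelyListColourable G k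

/-- The average degree `2|E|/|V|`. -/
noncomputable def averageDegree {V : Type u} (G : SimpleGraph V) : ℚ :=
  2 * (G.edgeSet.ncard : ℚ) / (Nat.card V : ℚ)

section aux

variable {V : Type u} [Fintype V] {F : Type w} [Field F]

/-- The graph polynomial. -/
noncomputable def gpoly (G : SimpleGraph V) [DecidableRel G.Adj] (F : Type w) [Field F] :
    MvPolynomial V F :=
  ∏ e ∈ G.edgeFinset, (X (Quot.out e).1 - X (Quot.out e).2)

/-- The sum of all partial derivatives. -/
noncomputable def totalD (V : Type u) [Fintype V] (F : Type w) [Field F] :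
    Derivation F (MvPolynomial V F) (MvPolynomial V F) := ∑ v : V, pderiv v

omit [Fintype V] in
lemma sum_pderiv_apply (s : Finset V) (q : MvPolynomial V F) :
    (∑ v ∈ s, (pderiv v : Derivation F (MvPolynomial V F) (MvPolynomial V F))) q
      = ∑ v ∈ s, pderiv v q := by
  classical
  induction s using Finset.induction_on with
  | empty => simp
  | insert a s ha ih => rw [Finset.sum_insert ha, Finset.sum_insert ha, Derivation.add_apply, ih]

lemma totalD_X (v : V) : totalD V F (X v) = 1 := by
  classical
  unfold totalD
  rw [sum_pderiv_apply]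
  rw [Finset.sum_eq_single v]
  · simp
  · intro b _ hb
    exact pderiv_X_of_ne hb.symm
  · simp

lemma totalD_gpoly (G : SimpleGraph V) [DecidableRel G.Adj] : totalD V F (gpoly G F) = 0 := by
  unfold gpoly
  refine Finset.prod_induction _ (fun q => totalD V F q = 0) ?_ ?_ ?_
  · intro a b ha hb
    rw [Derivation.leibniz, ha, hb]; simp
  · simp
  · intro e _
    rw [map_sub, totalD_X, totalD_X, sub_self]

/-- The constant exponent vector. -/
noncomputable def cexp (V : Type u) [Fintype V] (d : ℕ) : V →₀ ℕ :=
  Finsupp.equivFunOnFinite.symm (fun _ => d)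

lemma cexp_apply (d : ℕ) (v : V) : cexp V d v = d := rfl

lemma coeff_gpoly [Nonempty V] (G : SimpleGraph V) [DecidableRel G.Adj] (k : ℕ) (hk : 2 ≤ k)
    (hkF : (k : F) = 0) : coeff (cexp V (k - 1)) (gpoly G F) = 0 := by
  obtain ⟨u⟩ := ‹Nonempty V›
  set t := cexp V (k - 1) with ht
  have htu : Finsupp.single u 1 ≤ t := by
    rw [Finsupp.single_le_iff, ht, cexp_apply]; omega
  have h0 : coeff (t - Finsupp.single u 1) (totalD V F (gpoly G F)) = 0 := by
    rw [totalD_gpoly]; simp
  unfold totalD at h0
  rw [sum_pderiv_apply, coeff_sum] at h0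
  simp only [coeff_pderiv] at h0
  rw [Finset.sum_eq_single u] at h0
  · rw [tsub_add_cancel_of_le htu] at h0
    have hm : (((t - Finsupp.single u 1 : V →₀ ℕ) u : ℕ) : F) + 1 = -1 := by
      have h1 : (t - Finsupp.single u 1 : V →₀ ℕ) u = k - 2 := by
        simp [ht, cexp_apply]; omega
      rw [h1]
      have h2 : ((k - 2 : ℕ) : F) = (k : F) - 2 := by
        push_cast [Nat.cast_sub hk]; ring
      rw [h2, hkF]; ring
    rw [hm] at h0
    simpa using h0
  · intro v _ hv
    have hm : (((t - Finsupp.single u 1 : V →₀ ℕ) v : ℕ) : F) + 1 = 0 := by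
      have h1 : (t - Finsupp.single u 1 : V →₀ ℕ) v = k - 1 := by
        simp [ht, cexp_apply, Finsupp.single_apply, hv.symm]
      rw [h1]
      have h2 : ((k - 1 : ℕ) : F) = (k : F) - 1 := by
        push_cast [Nat.cast_sub (show 1 ≤ k by omega)]; ring
      rw [h2, hkF]; ring
    rw [hm, mul_zero]
  · simp

lemma totalDegree_gpoly (G : SimpleGraph V) [DecidableRel G.Adj] :
    (gpoly G F).totalDegree ≤ G.edgeFinset.card := by
  unfold gpoly
  refine (totalDegree_finsetProd _ _).trans ?_
  refine (Finset.sum_le_card_nsmul _ _ 1 ?_).trans (by simp)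
  intro e _
  refine (totalDegree_sub _ _).trans ?_
  simp [totalDegree_X]

lemma eval_gpoly_ne_zero_iff (G : SimpleGraph V) [DecidableRel G.Adj] (x : V → F) :
    eval x (gpoly G F) ≠ 0 ↔ ∀ u v, G.Adj u v → x u ≠ x v := by
  unfold gpoly
  rw [map_prod, Finset.prod_ne_zero_iff]
  constructor
  · intro h u v huv
    have h1 := h s(u, v) (by simpa using huv)
    have h2 : s((Quot.out s(u, v)).1, (Quot.out s(u, v)).2) = s(u, v) := Quot.out_eq _
    rw [Sym2.eq_iff] at h2
    simp only [map_sub, eval_X, sub_ne_zero] at h1
    rcases h2 with ⟨a, b⟩ | ⟨a, b⟩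
    · rwa [a, b] at h1
    · rw [a, b] at h1; exact h1.symm
  · intro h e he
    have h2 : s((Quot.out e).1, (Quot.out e).2) = e := Quot.out_eq _
    simp only [map_sub, eval_X, sub_ne_zero]
    apply h
    rw [← h2] at he
    simpa using he

/-- The auxiliary product `∏_v ∏_{y ∈ T_v} (x_v - y)`. -/
noncomputable def rpoly (T : V → Finset F) : MvPolynomial V F :=
  ∏ v, ∏ y ∈ T v, (X v - C y)

lemma coeff_rpoly (T : V → Finset F) (d : ℕ) (hT : ∀ v, (T v).card = d) :
    coeff (cexp V d) (rpoly T) = 1 := by
  classical
  let _ : LinearOrder V := WellOrderingRel.isWellOrder.linearOrder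
  let m : MonomialOrder V := MonomialOrder.lex
  have hin : ∀ v, m.Monic (∏ y ∈ T v, (X v - C y : MvPolynomial V F)) := fun v =>
    MonomialOrder.Monic.prod (fun y _ => MonomialOrder.monic_X_sub_C m v y)
  have hdin : ∀ v, m.degree (∏ y ∈ T v, (X v - C y : MvPolynomial V F)) = Finsupp.single v d := by
    intro v
    rw [MonomialOrder.degree_prod (fun y _ => (MonomialOrder.monic_X_sub_C m v y).ne_zero)]
    simp only [MonomialOrder.degree_X_sub_C]
    rw [Finset.sum_const, hT v]
    ext w
    simp [Finsupp.single_apply]
  have hout : m.Monic (rpoly T) := MonomialOrder.Monic.prod (fun v _ => hin v)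
  have hd : m.degree (rpoly T) = cexp V d := by
    unfold rpoly
    rw [MonomialOrder.degree_prod (fun v _ => (hin v).ne_zero)]
    simp only [hdin]
    ext w
    rw [Finsupp.finsetSum_apply]
    simp [Finsupp.single_apply, cexp_apply]
  have := hout.coeff_degree
  rwa [hd] at this

lemma totalDegree_rpoly (T : V → Finset F) (d : ℕ) (hT : ∀ v, (T v).card = d) :
    (rpoly T).totalDegree ≤ Fintype.card V * d := by
  unfold rpoly
  refine (totalDegree_finsetProd _ _).trans ?_
  refine (Finset.sum_le_card_nsmul _ _ d ?_).trans (by simp)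
  intro v _
  refine (totalDegree_finsetProd _ _).trans ?_
  refine (Finset.sum_le_card_nsmul _ _ 1 ?_).trans (by simp [hT v])
  intro y _
  refine (totalDegree_sub _ _).trans ?_
  simp [totalDegree_X]

lemma eval_rpoly (T : V → Finset F) (x : V → F) :
    eval x (rpoly T) = ∏ v, ∏ y ∈ T v, (x v - y) := by
  unfold rpoly
  simp [map_prod]

end aux

/-- Main statement in counting form. -/
theorem main {V : Type u} [Fintype V] [Nonempty V] (G : SimpleGraph V) [DecidableRel G.Adj]
    (k : ℕ) (hk : 2 ≤ k) (hE : G.edgeFinset.card ≤ Fintype.card V * (k - 1)) :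
    PropertyM G k := by
  classical
  rintro ⟨D, S, hS, c, hc, huniq⟩
  obtain ⟨p, hp, hpk⟩ := Nat.exists_prime_and_dvd (show k ≠ 1 by omega)
  have : Fact p.Prime := ⟨hp⟩
  let A := MvPolynomial D (ZMod p)
  let F := FractionRing A
  let φ : D → F := fun a => algebraMap A F (X a)
  have hφ : Function.Injective φ :=
    (IsFractionRing.injective A F).comp (MvPolynomial.X_injective)
  have hkF : (k : F) = 0 := by
    obtain ⟨q, hq⟩ := hpk
    have hpA : ((p : ℕ) : A) = 0 := by
      have : ((p : ℕ) : A) = C ((p : ℕ) : ZMod p) := by simp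
      rw [this, ZMod.natCast_self, map_zero]
    have hpF : ((p : ℕ) : F) = 0 := by
      have : ((p : ℕ) : F) = algebraMap A F (p : A) := by simp
      rw [this, hpA, map_zero]
    rw [hq, Nat.cast_mul, hpF, zero_mul]
  let S' : V → Finset F := fun v => (S v).image φ
  have hS' : ∀ v, (S' v).card = k := fun v => by
    rw [Finset.card_image_of_injective _ hφ, hS v]
  let T : V → Finset F := fun v => (S' v).erase (φ (c v))
  have hcS : ∀ v, φ (c v) ∈ S' v := fun v => Finset.mem_image_of_mem φ (hc.1 v)
  have hT : ∀ v, (T v).card = k - 1 := fun v => by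
    rw [Finset.card_erase_of_mem (hcS v), hS' v]
  let x0 : V → F := fun v => φ (c v)
  have hP0 : eval x0 (gpoly G F) ≠ 0 := by
    rw [eval_gpoly_ne_zero_iff]
    exact fun u v huv h => hc.2 u v huv (hφ h)
  have hR0 : eval x0 (rpoly T) ≠ 0 := by
    rw [eval_rpoly]
    refine Finset.prod_ne_zero_iff.mpr fun v _ => Finset.prod_ne_zero_iff.mpr fun y hy => ?_
    rw [sub_ne_zero]
    exact (Finset.ne_of_mem_erase hy).symm
  set α : F := eval x0 (gpoly G F) / eval x0 (rpoly T) with hα
  have hα0 : α ≠ 0 := div_ne_zero hP0 hR0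
  set Q : MvPolynomial V F := gpoly G F - C α * rpoly T with hQ
  have hcoeff : coeff (cexp V (k - 1)) Q = -α := by
    rw [hQ, coeff_sub, coeff_C_mul, coeff_gpoly G k hk hkF, coeff_rpoly T (k - 1) hT]
    ring
  have hdeg : (cexp V (k - 1)).degree = Fintype.card V * (k - 1) := by
    rw [Finsupp.degree_eq_sum]
    simp [cexp_apply]
  have htot : Q.totalDegree = (cexp V (k - 1)).degree := by
    apply le_antisymm
    · rw [hdeg, hQ]
      refine (totalDegree_sub _ _).trans (max_le ((totalDegree_gpoly G).trans hE) ?_)
      refine (totalDegree_mul _ _).trans ?_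
      rw [totalDegree_C, zero_add]
      exact totalDegree_rpoly T (k - 1) hT
    · have h1 : cexp V (k - 1) ∈ Q.support := by
        rw [mem_support_iff, hcoeff]
        exact neg_ne_zero.mpr hα0
      have h2 := le_totalDegree h1
      rw [Finsupp.degree_eq_sum]
      rw [Finsupp.sum_fintype _ _ (by simp)] at h2
      exact h2
  obtain ⟨s, hsS, hsQ⟩ := combinatorial_nullstellensatz_exists_eval_nonzero Q (cexp V (k - 1))
    (by rw [hcoeff]; exact neg_ne_zero.mpr hα0) htot S' (fun v => by
      rw [hS' v, cexp_apply]; omega)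
  -- lift `s` to a choice of colours
  have hlift : ∀ v, ∃ a ∈ S v, φ a = s v := fun v => by
    have := hsS v
    simpa [S'] using this
  choose c' hc'S hc'φ using hlift
  have hs : s = fun v => φ (c' v) := funext fun v => (hc'φ v).symm
  by_cases hcc : c' = c
  · apply hsQ
    have : s = x0 := by rw [hs, hcc]
    rw [this, hQ, map_sub, map_mul, eval_C, hα, div_mul_cancel₀ _ hR0, sub_self]
  · have hex : ∃ v, c' v ≠ c v := by
      by_contra h
      push Not at h
      exact hcc (funext h)
    obtain ⟨v, hv⟩ := hex
    have hR : eval s (rpoly T) = 0 := by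
      rw [eval_rpoly]
      refine Finset.prod_eq_zero (Finset.mem_univ v) ?_
      refine Finset.prod_eq_zero (i := φ (c' v)) ?_ ?_
      · exact Finset.mem_erase.mpr ⟨fun h => hv (hφ h), Finset.mem_image_of_mem φ (hc'S v)⟩
      · rw [hs]; simp
    rw [hQ, map_sub, map_mul, hR, mul_zero, sub_zero] at hsQ
    have hP := (eval_gpoly_ne_zero_iff G s).mp hsQ
    have : IsListColouring G S c' := by
      refine ⟨hc'S, fun u v huv h => hP u v huv ?_⟩
      rw [hs]; simp [h]
    exact hcc (huniq c' this)

/-- **Uniquely `k`-list colourable graphs have average degree larger than `2k - 2`.**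
For every `k ≥ 2`, every nonempty finite simple graph whose average degree is at most `2k - 2` (in
particular every graph whose average degree equals `2k - 2`) has property `M(k)`. -/
theorem result (k : ℕ) (hk : 2 ≤ k) (V : Type u) [Finite V] [Nonempty V] (G : SimpleGraph V)
    (havg : averageDegree G ≤ 2 * (k : ℚ) - 2) : PropertyM G k := by
  classical
  have := Fintype.ofFinite V
  refine main G k hk ?_
  unfold averageDegree at havg
  have hn : (0 : ℚ) < (Nat.card V : ℚ) := by exact_mod_cast Nat.card_pos
  rw [div_le_iff₀ hn] at havg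
  have he : G.edgeSet.ncard = G.edgeFinset.card := by
    rw [Set.ncard_eq_toFinset_card']; rfl
  rw [he, Nat.card_eq_fintype_card] at havg
  have h1 : ((G.edgeFinset.card : ℕ) : ℚ) ≤ ((Fintype.card V * (k - 1) : ℕ) : ℚ) := by
    push_cast [Nat.cast_sub (show 1 ≤ k by omega)]
    linarith
  exact_mod_cast h1

end Pool.Agent.Results.MP_e14bb7_co.AverageDegreeThreshold
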